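import Mathlib

set_option autoImplicit false

namespace Pool.Agent.Lib.MP_884c22_co

open Matrix

section Defs

variable {V : Type} [Fintype V] [DecidableEq V]

/-- The transition matrix `U(t) = exp(i t A)` of the continuous-time quantum walk on `X`. -/
noncomputable def transition (X : SimpleGraph V) [DecidableRel X.Adj] (t : ℝ) : Matrix V V ℂ :=
  NormedSpace.exp ((Complex.I * (t : ℂ)) • X.adjMatrix ℂ)

/-- Proper fractional revival on `{a, b}`: `a ≠ b` and there are a time `τ > 0` and complex numbers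
`α, β` with `α * β ≠ 0` such that `U(τ) e_a = α e_a + β e_b`. -/
def ProperFractionalRevival (X : SimpleGraph V) [DecidableRel X.Adj] (a b : V) : Prop :=
  a ≠ b ∧ ∃ τ : ℝ, 0 < τ ∧ ∃ α β : ℂ, α * β ≠ 0 ∧
    transition X τ *ᵥ (Pi.single a 1 : V → ℂ) =
      α • (Pi.single a 1 : V → ℂ) + β • (Pi.single b 1 : V → ℂ)

/-- The orthogonal projection `E_θ` of `ℝ^V` onto the `θ`-eigenspace of the adjacency matrix. -/
noncomputable def eigenProj (X : SimpleGraph V) [DecidableRel X.Adj] (θ : ℝ) :
    EuclideanSpace ℝ V →L[ℝ] EuclideanSpace ℝ V :=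
  (Module.End.eigenspace (Matrix.toEuclideanLin (X.adjMatrix ℝ)) θ).starProjection

/-- The eigenvalue support of `a`: all real `θ` with `E_θ e_a ≠ 0`. -/
def eigenSupport (X : SimpleGraph V) [DecidableRel X.Adj] (a : V) : Set ℝ :=
  {θ | eigenProj X θ (EuclideanSpace.single a (1 : ℝ)) ≠ 0}

end Defs

end Pool.Agent.Lib.MP_884c22_co
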