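import Pool.Agent.Lib.MP_884c22_co.Defs

set_option autoImplicit false

namespace Pool.Agent.Lib.MP_884c22_co

open Matrix

section Graph

/-- The cell (0, ..., 5) of a vertex; the cells have sizes 1, 1, 64, 128, 64, 32. -/
def cell (u : ℕ) : ℕ :=
  if u < 1 then 0 else if u < 2 then 1 else if u < 66 then 2 else if u < 194 then 3
  else if u < 258 then 4 else 5

/-- One-sided adjacency rule of the example graph on the vertices `0, ..., 289`. -/
def rule (u v : ℕ) : Bool :=
  match cell u, cell v with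
  | 0, 2 => true
  | 0, 3 => true
  | 1, 2 => true
  | 2, 2 => let d := (v + 64 - u) % 64; (Nat.blt 0 d && Nat.blt d 24) || Nat.blt 40 d
  | 3, 3 => let d := (v + 128 - u) % 128; (Nat.blt 0 d && Nat.blt d 24) || Nat.blt 104 d
  | 2, 3 => Nat.blt ((v - 66 + 128 - 2 * (u - 2)) % 128) 20
  | 2, 4 => Nat.blt ((v - 194 + 64 - (u - 2)) % 64) 14
  | 3, 5 => Nat.blt ((4 * (v - 258) + 128 - (u - 66)) % 128) 28
  | 4, 4 => let d := (v + 64 - u) % 64; Nat.beq d 1 || Nat.beq d 63
  | 4, 5 => Nat.blt ((2 * (v - 258) + 64 - (u - 194)) % 64) 52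
  | 5, 5 => let d := (v + 32 - u) % 32; Nat.beq d 1 || Nat.beq d 31
  | _, _ => false

/-- Symmetric adjacency rule. -/
def adjB (u v : ℕ) : Bool := rule u v || rule v u

/-- The numbers of neighbours: a vertex of cell `i` has `qtab i j` neighbours in cell `j`. -/
def qtab (i j : ℕ) : ℕ :=
  match i, j with
  | 0, 2 => 64
  | 0, 3 => 128
  | 1, 2 => 64
  | 2, 0 => 1
  | 2, 1 => 1
  | 2, 2 => 46
  | 2, 3 => 20
  | 2, 4 => 14
  | 3, 0 => 1
  | 3, 2 => 10
  | 3, 3 => 46
  | 3, 5 => 7
  | 4, 2 => 14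
  | 4, 4 => 2
  | 4, 5 => 26
  | 5, 3 => 28
  | 5, 4 => 52
  | 5, 5 => 2
  | _, _ => 0

/-- the first vertex of the cell `j` -/
def start (j : ℕ) : ℕ :=
  match j with
  | 0 => 0
  | 1 => 1
  | 2 => 2
  | 3 => 66
  | 4 => 194
  | 5 => 258
  | _ => 290

theorem count_check : (List.range 290).all (fun u => (List.range 6).all (fun j =>
    Nat.beq ((List.range' (start j) (start (j + 1) - start j)).countP (fun v => adjB u v))
      (qtab (cell u) j))) = true := by
  decide +kernel

theorem irrefl_check : (List.range 290).all (fun u => !(adjB u u)) = true := by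
  decide +kernel

theorem count_eq (u j : ℕ) (hu : u < 290) (hj : j < 6) :
    ((Finset.Ico (start j) (start (j + 1))).filter (fun v => adjB u v = true)).card =
      qtab (cell u) j := by
  have h := count_check
  rw [List.all_eq_true] at h
  have h1 := h u (List.mem_range.mpr hu)
  rw [List.all_eq_true] at h1
  have h2 := Nat.eq_of_beq_eq_true (h1 j (List.mem_range.mpr hj))
  rw [← h2, List.countP_eq_length_filter]
  have h3 : (Finset.Ico (start j) (start (j + 1))).filter (fun v => adjB u v = true) =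
      ((List.range' (start j) (start (j + 1) - start j)).filter (fun v => adjB u v)).toFinset := by
    ext x
    simp only [Finset.mem_filter, Finset.mem_Ico, List.mem_toFinset, List.mem_filter,
      List.mem_range'_1]
    constructor
    · rintro ⟨⟨h4, h5⟩, h6⟩
      exact ⟨⟨h4, by omega⟩, h6⟩
    · rintro ⟨⟨h4, h5⟩, h6⟩
      exact ⟨⟨h4, by omega⟩, h6⟩
  rw [h3, List.toFinset_card_of_nodup]
  exact List.Nodup.filter _ List.nodup_range'

/-- The example graph on 290 vertices. -/
def exG : SimpleGraph (Fin 290) where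
  Adj u v := adjB u.val v.val = true
  symm := ⟨by
    intro u v h
    unfold adjB at *
    rw [Bool.or_comm]
    exact h⟩
  loopless := by
    constructor
    intro u h
    have h1 := irrefl_check
    rw [List.all_eq_true] at h1
    have h2 := h1 u.val (List.mem_range.mpr u.isLt)
    rw [h] at h2
    exact absurd h2 (by decide)

instance : DecidableRel exG.Adj := fun u v => inferInstanceAs (Decidable (adjB u.val v.val = true))

theorem cell_of_mem (j v : ℕ) (hj : j < 6) (hv : v ∈ Finset.Ico (start j) (start (j + 1))) :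
    cell v = j := by
  rw [Finset.mem_Ico] at hv
  interval_cases j <;> simp only [start] at hv <;> unfold cell <;> split_ifs <;> omega

/-- The action of the adjacency matrix on functions that are constant on cells. -/
theorem adj_mulVec {R : Type} [CommRing R] (g : ℕ → R) (u : Fin 290) :
    (exG.adjMatrix R *ᵥ (fun v => g (cell v.val))) u =
      ∑ j ∈ Finset.range 6, (qtab (cell u.val) j : R) * g j := by
  rw [SimpleGraph.adjMatrix_mulVec_apply]
  have h1 : ∑ v ∈ exG.neighborFinset u, g (cell v.val) =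
      ∑ v : Fin 290, if adjB u.val v.val = true then g (cell v.val) else 0 := by
    rw [← Finset.sum_filter]
    apply Finset.sum_congr _ (fun _ _ => rfl)
    ext v
    simp only [SimpleGraph.mem_neighborFinset, Finset.mem_filter, Finset.mem_univ, true_and]
    rfl
  rw [h1, Fin.sum_univ_eq_sum_range (fun v => if adjB u.val v = true then g (cell v) else 0) 290]
  have h2 : ∀ j, j < 6 → ∑ v ∈ Finset.Ico (start j) (start (j + 1)),
      (if adjB u.val v = true then g (cell v) else 0) = (qtab (cell u.val) j : R) * g j := by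
    intro j hj
    rw [← count_eq u.val j u.isLt hj, ← Finset.sum_filter, ← nsmul_eq_mul, ← Finset.sum_const]
    apply Finset.sum_congr rfl
    intro v hv
    rw [cell_of_mem j v hj (Finset.mem_filter.mp hv).1]
  rw [Finset.sum_congr rfl (fun j hj => (h2 j (Finset.mem_range.mp hj)).symm)]
  rw [Finset.range_eq_Ico]
  have h3 : ∀ n, n ≤ 6 → ∑ v ∈ Finset.Ico 0 (start n),
      (if adjB u.val v = true then g (cell v) else 0) =
      ∑ j ∈ Finset.Ico 0 n, ∑ v ∈ Finset.Ico (start j) (start (j + 1)),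
        (if adjB u.val v = true then g (cell v) else 0) := by
    intro n hn
    induction n with
    | zero => simp [start]
    | succ n ih =>
      rw [Finset.sum_Ico_succ_top (Nat.zero_le n), ← ih (by omega)]
      have hn6 : n < 6 := by omega
      rw [Finset.sum_Ico_consecutive _ (Nat.zero_le _)]
      interval_cases n <;> decide
  exact h3 6 (le_refl 6)

end Graph

section ExpLemma

variable {n : Type} [Fintype n] [DecidableEq n]

theorem pow_mulVec_of_eigen (M : Matrix n n ℂ) (v : n → ℂ) (c : ℂ) (h : M *ᵥ v = c • v) (k : ℕ) :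
    (M ^ k) *ᵥ v = c ^ k • v := by
  induction k with
  | zero => simp
  | succ k ih =>
    rw [pow_succ, ← Matrix.mulVec_mulVec, h, Matrix.mulVec_smul, ih, smul_smul, pow_succ, mul_comm]

theorem exp_mulVec_of_eigen (M : Matrix n n ℂ) (v : n → ℂ) (c : ℂ) (h : M *ᵥ v = c • v) :
    NormedSpace.exp M *ᵥ v = Complex.exp c • v := by
  let _ : SeminormedRing (Matrix n n ℂ) := Matrix.linftyOpSemiNormedRing
  let _ : NormedRing (Matrix n n ℂ) := Matrix.linftyOpNormedRing
  let _ : NormedAlgebra ℂ (Matrix n n ℂ) := Matrix.linftyOpNormedAlgebra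
  have h1 : HasSum (fun k : ℕ => ((k.factorial : ℂ))⁻¹ • M ^ k) (NormedSpace.exp M) :=
    NormedSpace.exp_series_hasSum_exp' (𝕂 := ℂ) M
  have h2 : HasSum (fun k : ℕ => (((k.factorial : ℂ))⁻¹ • M ^ k) *ᵥ v) (NormedSpace.exp M *ᵥ v) := by
    let L : Matrix n n ℂ →ₗ[ℂ] (n → ℂ) :=
      { toFun := fun N => N *ᵥ v
        map_add' := fun N N' => Matrix.add_mulVec N N' v
        map_smul' := fun t N => Matrix.smul_mulVec t N v }
    have hL : Continuous L := by
      show Continuous (fun N : Matrix n n ℂ => N *ᵥ v)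
      exact Continuous.matrix_mulVec continuous_id continuous_const
    exact h1.map L hL
  have h3 : HasSum (fun k : ℕ => ((k.factorial : ℂ))⁻¹ • c ^ k) (Complex.exp c) := by
    rw [Complex.exp_eq_exp_ℂ]
    exact NormedSpace.exp_series_hasSum_exp' (𝕂 := ℂ) c
  have h4 : HasSum (fun k : ℕ => (((k.factorial : ℂ))⁻¹ • c ^ k) • v) (Complex.exp c • v) :=
    h3.smul_const v
  refine h2.unique ?_
  convert h4 using 1
  funext k
  rw [Matrix.smul_mulVec, pow_mulVec_of_eigen M v c h k, smul_smul, smul_eq_mul]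

theorem exp_mulVec_chain (M : Matrix n n ℂ) (f g1 g2 : n → ℂ) (s w κ : ℂ) (hw : w ≠ 0)
    (h0 : M *ᵥ f = s • f + g1) (h1 : M *ᵥ g1 = s • g1 + g2)
    (h2 : M *ᵥ g2 = s • g2 + w ^ 2 • g1) (hκ : Complex.exp (κ * w) = 1) :
    NormedSpace.exp (κ • M) *ᵥ f = Complex.exp (κ * s) • f := by
  have hw2 : w ^ 2 ≠ 0 := pow_ne_zero 2 hw
  set v0 : n → ℂ := f - (w ^ 2)⁻¹ • g2 with hv0
  set vp : n → ℂ := (2 * w ^ 2)⁻¹ • (g2 + w • g1) with hvp
  set vm : n → ℂ := (2 * w ^ 2)⁻¹ • (g2 - w • g1) with hvm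
  have hf : f = v0 + vp + vm := by
    rw [hv0, hvp, hvm]
    funext i
    simp only [Pi.add_apply, Pi.sub_apply, Pi.smul_apply, smul_eq_mul]
    field_simp
    ring
  have e0 : (κ • M) *ᵥ v0 = (κ * s) • v0 := by
    rw [Matrix.smul_mulVec, hv0, Matrix.mulVec_sub, Matrix.mulVec_smul, h0, h2]
    funext i
    simp only [Pi.add_apply, Pi.sub_apply, Pi.smul_apply, smul_eq_mul]
    field_simp
    ring
  have ep : (κ • M) *ᵥ vp = (κ * (s + w)) • vp := by
    rw [Matrix.smul_mulVec, hvp, Matrix.mulVec_smul, Matrix.mulVec_add, Matrix.mulVec_smul, h1, h2]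
    funext i
    simp only [Pi.add_apply, Pi.smul_apply, smul_eq_mul]
    field_simp
    ring
  have em : (κ • M) *ᵥ vm = (κ * (s - w)) • vm := by
    rw [Matrix.smul_mulVec, hvm, Matrix.mulVec_smul, Matrix.mulVec_sub, Matrix.mulVec_smul, h1, h2]
    funext i
    simp only [Pi.add_apply, Pi.sub_apply, Pi.smul_apply, smul_eq_mul]
    field_simp
    ring
  have x0 := exp_mulVec_of_eigen _ _ _ e0
  have xp := exp_mulVec_of_eigen _ _ _ ep
  have xm := exp_mulVec_of_eigen _ _ _ em
  have hp : Complex.exp (κ * (s + w)) = Complex.exp (κ * s) := by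
    rw [mul_add, Complex.exp_add, hκ, mul_one]
  have hm : Complex.exp (κ * (s - w)) = Complex.exp (κ * s) := by
    rw [mul_sub, Complex.exp_sub, hκ, div_one]
  rw [hp] at xp
  rw [hm] at xm
  conv_lhs => rw [hf]
  conv_rhs => rw [hf]
  rw [Matrix.mulVec_add, Matrix.mulVec_add, x0, xp, xm, smul_add, smul_add]

end ExpLemma

section Vectors

variable {R : Type} [CommRing R]

/-- Values on the cells of the vector `(1 + r) e_a + e_b`. -/
def cf (r : R) (j : ℕ) : R :=
  match j with
  | 0 => 1 + r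
  | 1 => 1
  | _ => 0

/-- Values on the cells of `(A - s) f`. -/
def cg1 (r : R) (j : ℕ) : R :=
  match j with
  | 0 => -(40 + 28 * r)
  | 1 => -(16 + 12 * r)
  | 2 => 2 + r
  | 3 => 1 + r
  | _ => 0

/-- Values on the cells of `(A - s)^2 f`. -/
def cg2 (r : R) (j : ℕ) : R :=
  match j with
  | 0 => 1568 + 1120 * r
  | 1 => 672 + 448 * r
  | 2 => -(14 * r)
  | 3 => -14
  | 4 => 28 + 14 * r
  | 5 => 28 + 28 * r
  | _ => 0

/-- the vector on the vertices given by a function of the cells -/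
def lift (g : ℕ → R) : Fin 290 → R := fun v => g (cell v.val)

theorem cell_lt (v : ℕ) : cell v < 6 := by
  unfold cell
  split_ifs <;> omega

theorem lift_cf (r : R) (hr : r ^ 2 = 2) :
    exG.adjMatrix R *ᵥ lift (cf r) = (16 + 12 * r) • lift (cf r) + lift (cg1 r) := by
  funext u
  have h := adj_mulVec (cf r) u
  unfold lift
  rw [h]
  simp only [Pi.add_apply, Pi.smul_apply, smul_eq_mul]
  have hc := cell_lt u.val
  generalize cell u.val = c at hc
  simp only [Finset.sum_range_succ, Finset.sum_range_zero]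
  interval_cases c <;> simp [qtab, cf, cg1] <;> first | ring1 | linear_combination (-12) * hr

theorem lift_cg1 (r : R) (hr : r ^ 2 = 2) :
    exG.adjMatrix R *ᵥ lift (cg1 r) = (16 + 12 * r) • lift (cg1 r) + lift (cg2 r) := by
  funext u
  have h := adj_mulVec (cg1 r) u
  unfold lift
  rw [h]
  simp only [Pi.add_apply, Pi.smul_apply, smul_eq_mul]
  have hc := cell_lt u.val
  generalize cell u.val = c at hc
  simp only [Finset.sum_range_succ, Finset.sum_range_zero]
  interval_cases c <;> simp [qtab, cg1, cg2] <;>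
    first
    | ring1
    | linear_combination (336) * hr
    | linear_combination (144) * hr
    | linear_combination (-12) * hr

theorem lift_cg2 (r w : R) (hr : r ^ 2 = 2) (hw : w ^ 2 = 1344) :
    exG.adjMatrix R *ᵥ lift (cg2 r) = (16 + 12 * r) • lift (cg2 r) + w ^ 2 • lift (cg1 r) := by
  funext u
  have h := adj_mulVec (cg2 r) u
  unfold lift
  rw [h, hw]
  simp only [Pi.add_apply, Pi.smul_apply, smul_eq_mul]
  have hc := cell_lt u.val
  generalize cell u.val = c at hc
  simp only [Finset.sum_range_succ, Finset.sum_range_zero]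
  interval_cases c <;> simp [qtab, cg1, cg2] <;>
    first
    | ring1
    | linear_combination (-13440) * hr
    | linear_combination (-5376) * hr
    | linear_combination (168) * hr
    | linear_combination (-168) * hr
    | linear_combination (-336) * hr

end Vectors

section Revival

theorem exp_lift (r w : ℂ) (hr : r ^ 2 = 2) (hw : w ^ 2 = 1344) (κ : ℂ)
    (hκ : Complex.exp (κ * w) = 1) :
    NormedSpace.exp (κ • exG.adjMatrix ℂ) *ᵥ lift (cf r) =
      Complex.exp (κ * (16 + 12 * r)) • lift (cf r) := by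
  have hw0 : w ≠ 0 := by
    rintro rfl
    norm_num at hw
  exact exp_mulVec_chain _ _ _ _ _ w κ hw0 (lift_cf r hr) (lift_cg1 r hr) (lift_cg2 r w hr hw) hκ

theorem lift_cf_eq (r : ℂ) : lift (cf r) =
    (1 + r) • (Pi.single 0 1 : Fin 290 → ℂ) + (Pi.single 1 1 : Fin 290 → ℂ) := by
  funext v
  unfold lift
  simp only [Pi.add_apply, Pi.smul_apply, smul_eq_mul]
  by_cases h0 : v = 0
  · subst h0
    simp [cell, cf]
  · by_cases h1 : v = 1
    · subst h1
      simp [cell, cf]
    · rw [Pi.single_eq_of_ne h0, Pi.single_eq_of_ne h1]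
      have h0' : v.val ≠ 0 := fun h => h0 (Fin.ext h)
      have h1' : v.val ≠ 1 := fun h => h1 (Fin.ext h)
      have hc : 2 ≤ cell v.val := by
        unfold cell
        split_ifs <;> omega
      have hc2 := cell_lt v.val
      generalize cell v.val = c at hc hc2
      interval_cases c <;> simp [cf]

end Revival


section Degree

open Polynomial

theorem indep (a b c d : ℚ)
    (h : (a : ℝ) + b * √2 + c * √21 + d * (√2 * √21) = 0) : a = 0 ∧ b = 0 ∧ c = 0 ∧ d = 0 := by
  have h2 : Irrational (√2) := irrational_sqrt_two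
  have sq2 : √2 ^ 2 = 2 := Real.sq_sqrt (by norm_num)
  have sq21 : √21 ^ 2 = 21 := Real.sq_sqrt (by norm_num)
  have irr : ∀ p q : ℚ, (p : ℝ) + q * √2 = 0 → p = 0 ∧ q = 0 := by
    intro p q hpq
    by_cases hq : q = 0
    · subst hq
      simp at hpq
      exact ⟨by exact_mod_cast hpq, rfl⟩
    · exfalso
      apply h2
      refine ⟨-p / q, ?_⟩
      have hq' : (q : ℝ) ≠ 0 := by exact_mod_cast hq
      push_cast
      field_simp
      linarith
  by_cases hcd : (c : ℝ) + d * √2 = 0
  · obtain ⟨hc, hd⟩ := irr c d hcd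
    subst hc hd
    simp at h
    obtain ⟨ha, hb⟩ := irr a b h
    exact ⟨ha, hb, rfl, rfl⟩
  · exfalso
    -- √21 = -(a + b√2)/(c+d√2) = u + v √2
    have hN : ((c : ℝ) ^ 2 - 2 * d ^ 2) ≠ 0 := by
      intro h0
      have h0' : (c : ℝ) ^ 2 = (d * √2) ^ 2 := by
        rw [mul_pow, sq2]
        linarith
      rcases sq_eq_sq_iff_eq_or_eq_neg.mp h0' with h1 | h1
      · have h3 := irr c (-d) (by push_cast; rw [h1]; ring)
        apply hcd
        rw [h3.1, neg_eq_zero.mp h3.2]
        simp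
      · apply hcd
        rw [h1]
        ring
    have hs : √21 = (((-(a * c - 2 * b * d)) / (c ^ 2 - 2 * d ^ 2) : ℚ) : ℝ) +
        (((-(b * c - a * d)) / (c ^ 2 - 2 * d ^ 2) : ℚ) : ℝ) * √2 := by
      push_cast
      field_simp
      have e1 : √21 * ((c : ℝ) + d * √2) = -(a + b * √2) := by linarith
      have e2 : √21 * ((c : ℝ) ^ 2 - 2 * d ^ 2) = √21 * ((c : ℝ) + d * √2) * (c - d * √2) := by
        linear_combination (√21 * (d : ℝ) ^ 2) * sq2
      rw [e2, e1]
      linear_combination ((b : ℝ) * d) * sq2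
    generalize ((-(a * c - 2 * b * d)) / (c ^ 2 - 2 * d ^ 2) : ℚ) = u at hs
    generalize ((-(b * c - a * d)) / (c ^ 2 - 2 * d ^ 2) : ℚ) = v at hs
    have e3 : (((u ^ 2 + 2 * v ^ 2 - 21 : ℚ)) : ℝ) + ((2 * u * v : ℚ) : ℝ) * √2 = 0 := by
      push_cast
      have : √21 ^ 2 = ((u : ℝ) + v * √2) ^ 2 := by rw [hs]
      rw [sq21] at this
      linear_combination (-(v : ℝ) ^ 2) * sq2 - this
    obtain ⟨e4, e5⟩ := irr _ _ e3
    have e6 : u = 0 ∨ v = 0 := by
      rcases mul_eq_zero.mp e5 with h1 | h1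
      · left
        linarith
      · right
        exact h1
    rcases e6 with h1 | h1
    · -- 2 v^2 = 21
      subst h1
      have h7 : Irrational (√(42 : ℝ)) := by
        have := (Nat.Prime.irrational_sqrt (show Nat.Prime 2 by norm_num))
        have h42 : Irrational (√((42 : ℕ) : ℝ)) := by
          rw [irrational_sqrt_natCast_iff]
          rintro ⟨k, hk⟩
          have : k < 7 := by nlinarith
          interval_cases k <;> omega
        exact_mod_cast h42
      apply h7
      refine ⟨|2 * v|, ?_⟩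
      push_cast
      rw [eq_comm, Real.sqrt_eq_iff_mul_self_eq (by norm_num) (abs_nonneg _), abs_mul_abs_self]
      have e8 : (v : ℝ) ^ 2 * 2 = 21 := by
        have : (0 : ℚ) ^ 2 + 2 * v ^ 2 - 21 = 0 := e4
        have h9 : v ^ 2 * 2 = 21 := by linarith
        exact_mod_cast h9
      nlinarith
    · subst h1
      have h7 : Irrational (√(21 : ℝ)) := by
        have h21 : Irrational (√((21 : ℕ) : ℝ)) := by
          rw [irrational_sqrt_natCast_iff]
          rintro ⟨k, hk⟩
          have : k < 5 := by nlinarith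
          interval_cases k <;> omega
        exact_mod_cast h21
      apply h7
      exact ⟨u, by rw [hs]; simp⟩


theorem degree_theta (θ : ℝ) (hθ : θ = 16 + 12 * √2 + 8 * √21) :
    3 ≤ (minpoly ℚ θ).natDegree := by
  by_contra hlt
  push Not at hlt
  have sq2 : √2 ^ 2 = 2 := Real.sq_sqrt (by norm_num)
  have sq21 : √21 ^ 2 = 21 := Real.sq_sqrt (by norm_num)
  have i2 : IsIntegral ℚ (√2) := by
    refine ⟨X ^ 2 - C 2, monic_X_pow_sub_C _ (by norm_num), ?_⟩
    simp [sq2]
  have i21 : IsIntegral ℚ (√21) := by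
    refine ⟨X ^ 2 - C 21, monic_X_pow_sub_C _ (by norm_num), ?_⟩
    simp [sq21]
  have hnat : ∀ k : ℕ, IsIntegral ℚ ((k : ℝ)) := fun k => by
    have := isIntegral_algebraMap (R := ℚ) (A := ℝ) (x := (k : ℚ))
    simpa using this
  have hint : IsIntegral ℚ θ := by
    rw [hθ]
    have h16 := hnat 16
    have h12 := hnat 12
    have h8 := hnat 8
    norm_num at h16 h12 h8
    exact ((h16.add (h12.mul i2)).add (h8.mul i21))
  have hne := minpoly.ne_zero hint
  have h0 := minpoly.aeval ℚ θ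
  have hsum := (minpoly ℚ θ).as_sum_range_C_mul_X_pow' hlt
  rw [hsum] at h0
  simp only [Finset.sum_range_succ, Finset.sum_range_zero, map_add, map_mul, aeval_C, map_pow,
    aeval_X, eq_ratCast, zero_add, pow_zero, pow_one, mul_one] at h0
  set a0 := (minpoly ℚ θ).coeff 0 with ha0
  set a1 := (minpoly ℚ θ).coeff 1 with ha1
  set a2 := (minpoly ℚ θ).coeff 2 with ha2
  have h1 : ((a0 + 16 * a1 + 1888 * a2 : ℚ) : ℝ) + ((12 * a1 + 384 * a2 : ℚ) : ℝ) * √2 +
      ((8 * a1 + 256 * a2 : ℚ) : ℝ) * √21 + ((192 * a2 : ℚ) : ℝ) * (√2 * √21) = 0 := by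
    push_cast
    rw [hθ] at h0
    linear_combination h0 - (144 * (a2 : ℝ)) * sq2 - (64 * (a2 : ℝ)) * sq21
  obtain ⟨e1, e2, e3, e4⟩ := indep _ _ _ _ h1
  have k2 : a2 = 0 := by linarith
  have k1 : a1 = 0 := by linarith
  have k0 : a0 = 0 := by linarith
  apply hne
  rw [hsum]
  simp only [Finset.sum_range_succ, Finset.sum_range_zero, ← ha0, ← ha1, ← ha2, k0, k1, k2]
  simp

end Degree

section Final

open Complex in
theorem revival : ProperFractionalRevival exG 0 1 := by
  refine ⟨by decide, 2 * Real.pi / √1344, by positivity, ?_⟩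
  have hs : (0 : ℝ) < √1344 := Real.sqrt_pos.mpr (by norm_num)
  have hsC : ((√1344 : ℝ) : ℂ) ≠ 0 := by exact_mod_cast hs.ne'
  have hsq : ((√1344 : ℝ) : ℂ) ^ 2 = 1344 := by
    have : (√1344) ^ 2 = 1344 := Real.sq_sqrt (by norm_num)
    exact_mod_cast this
  have hr : ((√2 : ℝ) : ℂ) ^ 2 = 2 := by
    have : (√2) ^ 2 = 2 := Real.sq_sqrt (by norm_num)
    exact_mod_cast this
  have hr' : (-((√2 : ℝ) : ℂ)) ^ 2 = 2 := by rw [neg_sq, hr]
  have h2pos : (0 : ℝ) < √2 := Real.sqrt_pos.mpr (by norm_num)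
  have hrC : ((√2 : ℝ) : ℂ) ≠ 0 := by exact_mod_cast h2pos.ne'
  set κ : ℂ := Complex.I * ((2 * Real.pi / √1344 : ℝ) : ℂ) with hκdef
  have hκ : Complex.exp (κ * ((√1344 : ℝ) : ℂ)) = 1 := by
    have : κ * ((√1344 : ℝ) : ℂ) = 2 * Real.pi * Complex.I := by
      rw [hκdef]
      push_cast
      field_simp
    rw [this, Complex.exp_two_pi_mul_I]
  have E1 := exp_lift ((√2 : ℝ) : ℂ) _ hr hsq κ hκ
  have E2 := exp_lift (-((√2 : ℝ) : ℂ)) _ hr' hsq κ hκ
  set l1 : ℂ := Complex.exp (κ * (16 + 12 * ((√2 : ℝ) : ℂ))) with hl1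
  set l2 : ℂ := Complex.exp (κ * (16 + 12 * (-((√2 : ℝ) : ℂ)))) with hl2
  have n1 : ‖l1‖ = 1 := by
    have : κ * (16 + 12 * ((√2 : ℝ) : ℂ)) =
        (((2 * Real.pi / √1344) * (16 + 12 * √2) : ℝ) : ℂ) * Complex.I := by
      rw [hκdef]
      push_cast
      ring
    rw [hl1, this, Complex.norm_exp_ofReal_mul_I]
  have n2 : ‖l2‖ = 1 := by
    have : κ * (16 + 12 * (-((√2 : ℝ) : ℂ))) =
        (((2 * Real.pi / √1344) * (16 - 12 * √2) : ℝ) : ℂ) * Complex.I := by
      rw [hκdef]
      push_cast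
      ring
    rw [hl2, this, Complex.norm_exp_ofReal_mul_I]
  have hne : l1 ≠ l2 := by
    intro h
    have h1 : Complex.exp (κ * (24 * ((√2 : ℝ) : ℂ))) = 1 := by
      have : κ * (24 * ((√2 : ℝ) : ℂ)) =
          κ * (16 + 12 * ((√2 : ℝ) : ℂ)) - κ * (16 + 12 * (-((√2 : ℝ) : ℂ))) := by ring
      rw [this, Complex.exp_sub, ← hl1, ← hl2, h]
      exact div_self (Complex.exp_ne_zero _)
    rw [Complex.exp_eq_one_iff] at h1
    obtain ⟨k, hk⟩ := h1
    have hpi : (Real.pi : ℂ) ≠ 0 := by exact_mod_cast Real.pi_ne_zero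
    have h2 : (24 : ℂ) * ((√2 : ℝ) : ℂ) = k * ((√1344 : ℝ) : ℂ) := by
      rw [hκdef] at hk
      push_cast at hk
      field_simp at hk
      have hI := Complex.I_ne_zero
      linear_combination hk
    have h3 : (24 : ℝ) * √2 = k * √1344 := by exact_mod_cast h2
    have h4 : ((24 : ℝ) * √2) ^ 2 = (k * √1344) ^ 2 := by rw [h3]
    rw [mul_pow, mul_pow, Real.sq_sqrt (by norm_num), Real.sq_sqrt (by norm_num)] at h4
    have h5 : (24 : ℤ) ^ 2 * 2 = k ^ 2 * 1344 := by exact_mod_cast h4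
    have h6 : k ^ 2 < 1 := by omega
    have h7 : k ^ 2 = 0 := by
      have := sq_nonneg k
      omega
    omega
  refine ⟨(l1 * (1 + ((√2 : ℝ) : ℂ)) - l2 * (1 - ((√2 : ℝ) : ℂ))) / (2 * ((√2 : ℝ) : ℂ)),
    (l1 - l2) / (2 * ((√2 : ℝ) : ℂ)), ?_, ?_⟩
  · apply mul_ne_zero
    · apply div_ne_zero _ (mul_ne_zero two_ne_zero hrC)
      intro h
      have h1 : l1 * (1 + ((√2 : ℝ) : ℂ)) = l2 * (1 - ((√2 : ℝ) : ℂ)) := sub_eq_zero.mp h
      have h2 := congrArg (fun z => ‖z‖) h1
      simp only [norm_mul, n1, n2, one_mul] at h2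
      have h3 : ‖(1 + ((√2 : ℝ) : ℂ))‖ = 1 + √2 := by
        have : (1 + ((√2 : ℝ) : ℂ)) = ((1 + √2 : ℝ) : ℂ) := by push_cast; ring
        rw [this, Complex.norm_real, Real.norm_eq_abs, abs_of_pos (by positivity)]
      have h4 : ‖(1 - ((√2 : ℝ) : ℂ))‖ ≤ |1 - √2| := by
        have : (1 - ((√2 : ℝ) : ℂ)) = ((1 - √2 : ℝ) : ℂ) := by push_cast; ring
        rw [this, Complex.norm_real, Real.norm_eq_abs]
      rw [h3] at h2
      rw [← h2] at h4
      have h5 : |1 - √2| < 1 + √2 := by
        rw [abs_lt]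
        constructor <;> linarith
      linarith
    · exact div_ne_zero (sub_ne_zero.mpr hne) (mul_ne_zero two_ne_zero hrC)
  · have hT : transition exG (2 * Real.pi / √1344) = NormedSpace.exp (κ • exG.adjMatrix ℂ) := rfl
    rw [hT]
    rw [lift_cf_eq] at E1 E2
    rw [Matrix.mulVec_add, Matrix.mulVec_smul] at E1 E2
    set u0 := NormedSpace.exp (κ • exG.adjMatrix ℂ) *ᵥ (Pi.single 0 1 : Fin 290 → ℂ) with hu0
    funext v
    have F1 := congrFun E1 v
    have F2 := congrFun E2 v
    simp only [Pi.add_apply, Pi.smul_apply, smul_eq_mul] at F1 F2 ⊢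
    field_simp
    linear_combination F1 - F2

theorem support_mem : (16 + 12 * √2 + 8 * √21 : ℝ) ∈ eigenSupport exG 0 := by
  have hr : √2 ^ 2 = 2 := Real.sq_sqrt (by norm_num)
  have h21 : √21 ^ 2 = 21 := Real.sq_sqrt (by norm_num)
  have h2pos : (0 : ℝ) < √2 := Real.sqrt_pos.mpr (by norm_num)
  have h21pos : (0 : ℝ) < √21 := Real.sqrt_pos.mpr (by norm_num)
  have hw : (8 * √21) ^ 2 = 1344 := by rw [mul_pow, h21]; norm_num
  have hA1 := lift_cg1 (√2) hr
  have hA2 := lift_cg2 (√2) (8 * √21) hr hw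
  set vv : Fin 290 → ℝ := lift (cg2 (√2)) + (8 * √21) • lift (cg1 (√2)) with hvv
  have hAv : exG.adjMatrix ℝ *ᵥ vv = (16 + 12 * √2 + 8 * √21) • vv := by
    rw [hvv, Matrix.mulVec_add, Matrix.mulVec_smul, hA1, hA2]
    funext i
    simp only [Pi.add_apply, Pi.smul_apply, smul_eq_mul]
    ring
  have hmem : WithLp.toLp 2 vv ∈ Module.End.eigenspace (Matrix.toEuclideanLin (exG.adjMatrix ℝ))
      (16 + 12 * √2 + 8 * √21) := by
    rw [Module.End.mem_eigenspace_iff]
    rw [Matrix.toEuclideanLin_toLp, Matrix.toLin'_apply, hAv]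
    rfl
  have hv0 : vv 0 ≠ 0 := by
    have : vv 0 = 1568 + 1120 * √2 - 8 * √21 * (40 + 28 * √2) := by
      rw [hvv]
      simp [lift, cell, cg1, cg2]
      ring
    rw [this]
    intro h
    have h1 : (1568 + 1120 * √2) ^ 2 = (8 * √21 * (40 + 28 * √2)) ^ 2 := by
      rw [sub_eq_zero.mp h]
    have h2 : (1568 + 1120 * √2) ^ 2 - (8 * √21 * (40 + 28 * √2)) ^ 2 =
        709632 + 501760 * √2 := by
      linear_combination (1120 ^ 2 - 1344 * 28 ^ 2 : ℝ) * hr - 64 * (40 + 28 * √2) ^ 2 * h21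
    rw [h1, sub_self] at h2
    linarith
  intro h
  rw [eigenProj, Submodule.starProjection_apply_eq_zero_iff] at h
  have h3 := h (WithLp.toLp 2 vv) hmem
  rw [EuclideanSpace.inner_single_right] at h3
  simp at h3
  exact hv0 h3

end Final

theorem main_result : ∃ (X : SimpleGraph (Fin 290)) (_ : DecidableRel X.Adj) (a b : Fin 290),
    ProperFractionalRevival X a b ∧ ∃ θ ∈ eigenSupport X a, 3 ≤ (minpoly ℚ θ).natDegree :=
  ⟨exG, inferInstance, 0, 1, revival, 16 + 12 * √2 + 8 * √21, support_mem, degree_theta _ rfl⟩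

end Pool.Agent.Lib.MP_884c22_co
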